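import Pool.Agent.CutR.Kar

open Filter Topology Finset

namespace CutR

lemma cb_choose_neg (b : ℝ) (n : ℕ) : Ring.choose (-b) n = (-1)^n * cb b n := by
  rw [Ring.choose_neg, cb_choose]
  rcases Nat.even_or_odd n with h | h
  · rw [h.neg_one_pow, one_mul, Int.negOnePow_even _ (by exact_mod_cast h), one_smul]
  · rw [h.neg_one_pow, Int.negOnePow_odd _ (by exact_mod_cast h), Units.neg_smul, one_smul]
    ring

lemma cb_conv (a b : ℝ) (n : ℕ) :
    ∑ ij ∈ antidiagonal n, cb a ij.1 * cb b ij.2 = cb (a+b) n := by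
  have h := Ring.add_choose_eq (r := -a) (s := -b) n (Commute.all _ _)
  rw [← neg_add, cb_choose_neg] at h
  have h2 : ∀ ij ∈ antidiagonal n, Ring.choose (-a) ij.1 * Ring.choose (-b) ij.2
      = (-1)^n * (cb a ij.1 * cb b ij.2) := by
    intro ij hij
    rw [cb_choose_neg, cb_choose_neg, ← mem_antidiagonal.1 hij, pow_add]
    ring
  rw [sum_congr rfl h2, ← mul_sum] at h
  exact (mul_left_cancel₀ (by simp : ((-1:ℝ))^n ≠ 0) h).symm

lemma cb_one (n : ℕ) : cb 1 n = 1 := by
  induction n with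
  | zero => exact cb_zero 1
  | succ n ih => rw [cb_succ, ih]; field_simp; ring

lemma cb_shift (b : ℝ) (n : ℕ) : cb (b+1) n * b = cb b n * (b + n) := by
  induction n with
  | zero => simp [cb_zero]
  | succ n ih =>
    rw [cb_succ, cb_succ]
    have h2 : ((n : ℝ) + 1) ≠ 0 := by positivity
    push_cast
    field_simp
    linear_combination (b + n + 1) * ih

/-- convolution -/
noncomputable def cv (x y : ℕ → ℝ) (n : ℕ) : ℝ := ∑ ij ∈ antidiagonal n, x ij.1 * y ij.2

lemma cv_eq_coeff (x y : ℕ → ℝ) (n : ℕ) :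
    cv x y n = PowerSeries.coeff n (PowerSeries.mk x * PowerSeries.mk y) := by
  rw [PowerSeries.coeff_mul]
  simp [cv]

lemma mk_cv (x y : ℕ → ℝ) : PowerSeries.mk (cv x y) = PowerSeries.mk x * PowerSeries.mk y := by
  ext n
  rw [PowerSeries.coeff_mk, cv_eq_coeff]

lemma cv_assoc (x y z : ℕ → ℝ) : cv (cv x y) z = cv x (cv y z) := by
  funext n
  rw [cv_eq_coeff, cv_eq_coeff, mk_cv, mk_cv, mul_assoc]

lemma cv_comm (x y : ℕ → ℝ) : cv x y = cv y x := by
  funext n
  rw [cv_eq_coeff, cv_eq_coeff, mul_comm]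

lemma cv_one (x : ℕ → ℝ) (n : ℕ) : cv x (fun _ => 1) n = ∑ k ∈ range (n+1), x k := by
  rw [cv, Nat.sum_antidiagonal_eq_sum_range_succ (fun i _ => x i * 1)]
  simp

lemma cv_range (x y : ℕ → ℝ) (n : ℕ) : cv x y n = ∑ k ∈ range (n+1), x k * y (n-k) := by
  rw [cv, Nat.sum_antidiagonal_eq_sum_range_succ (fun i j => x i * y j)]

lemma cv_add (x y z : ℕ → ℝ) (n : ℕ) : cv x (fun k => y k + z k) n = cv x y n + cv x z n := by
  simp only [cv, mul_add, sum_add_distrib]

lemma cv_smul (x y : ℕ → ℝ) (c : ℝ) (n : ℕ) : cv x (fun k => c * y k) n = c * cv x y n := by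
  simp only [cv, mul_sum]
  apply sum_congr rfl
  intro i _
  ring

lemma cv_finite (x : ℕ → ℝ) (K : ℝ) (N n : ℕ) (hn : N ≤ n) :
    cv x (fun k => if k < N then K else 0) n = ∑ j ∈ range N, x (n-j) * K := by
  rw [cv_comm, cv_range]
  have : ∑ k ∈ range (n+1), (if k < N then K else 0) * x (n-k)
      = ∑ k ∈ range N, (if k < N then K else 0) * x (n-k) := by
    symm
    apply sum_subset
    · intro k hk
      simp only [mem_range] at hk ⊢
      omega
    · intro k _ hk
      simp only [mem_range] at hk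
      rw [if_neg hk, zero_mul]
  rw [this]
  apply sum_congr rfl
  intro j hj
  rw [if_pos (mem_range.1 hj), mul_comm]

/-- Toeplitz lemma for convolutions. -/
lemma cv_toeplitz {A V x : ℕ → ℝ} (hA : ∀ n, 0 ≤ A n) (hT : ∀ n, 0 < cv A V n)
    (hAT : ∀ j, Tendsto (fun n => A (n - j) / cv A V n) atTop (𝓝 0))
    (hx : ∀ ε > 0, ∃ K : ℝ, ∃ N : ℕ, ∀ j, |x j| ≤ (if j < N then K else 0) + ε * V j) :
    Tendsto (fun n => cv A x n / cv A V n) atTop (𝓝 0) := by
  rw [Metric.tendsto_nhds]
  intro ε hε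
  obtain ⟨K, N, h⟩ := hx (ε/2) (half_pos hε)
  have h1 : Tendsto (fun n => ∑ j ∈ range N, (A (n - j) / cv A V n) * K) atTop (𝓝 0) := by
    have := tendsto_finsetSum (range N) (fun j _ => (hAT j).mul_const K)
    simpa using this
  filter_upwards [h1.eventually (gt_mem_nhds (half_pos hε)), eventually_ge_atTop N] with n hn hN
  rw [Real.dist_eq, sub_zero, abs_div, abs_of_pos (hT n), div_lt_iff₀ (hT n)]
  have e1 : |cv A x n| ≤ cv A (fun k => (if k < N then K else 0) + ε/2 * V k) n := by
    rw [cv, cv]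
    refine (abs_sum_le_sum_abs _ _).trans (sum_le_sum (fun ij _ => ?_))
    rw [abs_mul, abs_of_nonneg (hA _)]
    exact mul_le_mul_of_nonneg_left (h _) (hA _)
  rw [cv_add, cv_smul, cv_finite A K N n hN] at e1
  have e2 : ∑ j ∈ range N, A (n - j) * K = (∑ j ∈ range N, (A (n - j) / cv A V n) * K) * cv A V n := by
    rw [sum_mul]
    apply sum_congr rfl
    intro j _
    have := (hT n).ne'
    field_simp
  rw [e2] at e1
  have e3 := mul_lt_mul_of_pos_right hn (hT n)
  linarith

/-- hypotheses on a renewal sequence and its tail -/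
structure RT (u q : ℕ → ℝ) (al b : ℝ) : Prop where
  h0 : 0 < al
  h1 : al < 1
  hb : 0 < b
  hu : ∀ n, 0 ≤ u n
  hq : ∀ n, 0 ≤ q n
  hmono : Antitone q
  hq0 : Tendsto q atTop (𝓝 0)
  hc : ∀ n, ∑ k ∈ range (n+1), u k * q (n-k) = 1
  hl : Tendsto (fun n : ℕ => u n * (n:ℝ)^(1-al)) atTop (𝓝 b)

variable {u q : ℕ → ℝ} {al b : ℝ}

lemma RT.cv_qu (h : RT u q al b) (n : ℕ) : cv q u n = 1 := by
  rw [cv_comm, cv_range, h.hc]

lemma RT.small (h : RT u q al b) : ∀ ε > 0, ∃ K : ℝ, ∃ N : ℕ, ∀ j,
    |u j - (b * Real.Gamma al) * cb al j| ≤ (if j < N then K else 0) + ε * u j := by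
  intro ε hε
  have hL : 0 < b * Real.Gamma al := mul_pos h.hb (Real.Gamma_pos_of_pos h.h0)
  set L := b * Real.Gamma al with hLd
  have h1 := equiv_cb h.h0 h.hl
  rw [← hLd] at h1
  -- u j / cb j → L ; eventually |u j - L cb j| ≤ δ cb j with cb j ≤ (2/L) u j
  have h2 := h1.eventually (Metric.ball_mem_nhds L (show 0 < min (L/2) (ε * L / 2) by positivity))
  rw [eventually_atTop] at h2
  obtain ⟨N, hN⟩ := h2
  refine ⟨∑ n ∈ range N, |u n - L * cb al n|, N, fun j => ?_⟩
  have hc := cb_pos h.h0 j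
  have huj := h.hu j
  split_ifs with hj
  · have := single_le_sum (f := fun n => |u n - L * cb al n|) (fun _ _ => abs_nonneg _)
      (mem_range.2 hj)
    have h2 := mul_nonneg hε.le huj
    linarith
  · have hb' := hN j (not_lt.1 hj)
    rw [Real.dist_eq, lt_min_iff] at hb'
    obtain ⟨ha, hb'⟩ := hb'
    have h3 : u j - L * cb al j = (u j / cb al j - L) * cb al j := by field_simp
    have h4 : L/2 * cb al j ≤ u j := by
      have : L/2 ≤ u j / cb al j := by
        have := (abs_lt.1 ha).1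
        linarith
      exact (le_div_iff₀ hc).1 this
    rw [zero_add, h3, abs_mul, abs_of_pos hc]
    calc |u j / cb al j - L| * cb al j ≤ (ε * L / 2) * cb al j :=
          mul_le_mul_of_nonneg_right hb'.le hc.le
      _ = ε * (L/2 * cb al j) := by ring
      _ ≤ ε * u j := mul_le_mul_of_nonneg_left h4 hε.le

/-- `r n = L (q * cb al) n → 1` -/
lemma RT.r_tendsto (h : RT u q al b) :
    Tendsto (fun n => (b * Real.Gamma al) * cv q (cb al) n) atTop (𝓝 1) := by
  set L := b * Real.Gamma al with hLd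
  have h1 := cv_toeplitz (A := q) (V := u) (x := fun j => u j - L * cb al j) h.hq
    (fun n => by rw [h.cv_qu]; exact one_pos)
    (fun j => by
      simp_rw [h.cv_qu, div_one]
      exact h.hq0.comp (tendsto_sub_atTop_nat j))
    h.small
  simp_rw [h.cv_qu, div_one] at h1
  have h2 := (tendsto_const_nhds (x := (1:ℝ))).sub h1
  rw [sub_zero] at h2
  refine h2.congr (fun n => ?_)
  have : (fun j => u j - L * cb al j) = (fun j => u j + (-L) * cb al j) := by
    funext j; ring
  rw [this, cv_add, cv_smul, h.cv_qu]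
  ring

lemma cb_ratio_tendsto {β : ℝ} (hβ : 0 < β) (j : ℕ) :
    Tendsto (fun n => cb β (n - j) / cb (β+1) n) atTop (𝓝 0) := by
  have h1 : Tendsto (fun n : ℕ => β / (β + ((n - j : ℕ) : ℝ))) atTop (𝓝 0) := by
    apply Tendsto.const_div_atTop
    apply tendsto_atTop_add_const_left
    exact tendsto_natCast_atTop_atTop.comp (tendsto_sub_atTop_nat j)
  refine squeeze_zero (fun n => (div_pos (cb_pos hβ _) (cb_pos (by linarith) _)).le) (fun n => ?_) h1
  have hm : cb (β+1) (n - j) ≤ cb (β+1) n := by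
    rw [← cb_sum, ← cb_sum]
    apply sum_le_sum_of_subset_of_nonneg
    · intro k hk
      simp only [mem_range] at hk ⊢
      omega
    · intro i _ _
      exact (cb_pos hβ i).le
  have hp := cb_pos hβ (n-j)
  have hp2 : 0 < cb (β+1) (n-j) := cb_pos (by linarith) _
  have hd : 0 < β + ((n - j : ℕ) : ℝ) := by positivity
  calc cb β (n - j) / cb (β+1) n ≤ cb β (n - j) / cb (β+1) (n-j) :=
        div_le_div_of_nonneg_left hp.le hp2 hm
    _ = β / (β + ((n - j : ℕ) : ℝ)) := by
        rw [div_eq_div_iff hp2.ne' hd.ne']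
        have := cb_shift β (n-j)
        linarith

lemma RT.sum_tendsto (h : RT u q al b) :
    Tendsto (fun n : ℕ => (∑ k ∈ range (n+1), q k) / cb (1 - al + 1) n) atTop
      (𝓝 (1 / (b * Real.Gamma al))) := by
  have hL : 0 < b * Real.Gamma al := mul_pos h.hb (Real.Gamma_pos_of_pos h.h0)
  have hβ : 0 < 1 - al := by linarith [h.h1]
  have hT : ∀ n, cv (cb (1-al)) (fun _ => 1) n = cb (1 - al + 1) n := by
    intro n
    rw [cv_one, cb_sum]
  have hr := h.r_tendsto
  set L := b * Real.Gamma al with hLd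
  set r : ℕ → ℝ := fun n => L * cv q (cb al) n with hrd
  have h1 := cv_toeplitz (A := cb (1-al)) (V := fun _ => 1) (x := fun j => r j - 1)
    (fun n => (cb_pos hβ n).le)
    (fun n => by rw [hT]; exact cb_pos (by linarith) n)
    (fun j => by
      simp_rw [hT]
      exact cb_ratio_tendsto hβ j)
    (by
      intro ε hε
      rw [Metric.tendsto_atTop] at hr
      obtain ⟨N, hN⟩ := hr ε hε
      refine ⟨∑ n ∈ range N, |r n - 1|, N, fun j => ?_⟩
      split_ifs with hj
      · have := single_le_sum (f := fun n => |r n - 1|) (fun _ _ => abs_nonneg _)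
          (mem_range.2 hj)
        linarith
      · have := hN j (not_lt.1 hj)
        rw [Real.dist_eq] at this
        linarith)
  simp_rw [hT] at h1
  have e : ∀ n, cv (cb (1-al)) (fun j => r j - 1) n
      = L * (∑ k ∈ range (n+1), q k) - cb (1-al+1) n := by
    intro n
    have e1 : (fun j => r j - 1) = (fun j => L * cv q (cb al) j + (-1) * (fun _ => (1:ℝ)) j) := by
      funext j
      simp [hrd, sub_eq_add_neg]
    rw [e1, cv_add, cv_smul, cv_smul, hT]
    have e2 : cv (cb (1-al)) (fun j => cv q (cb al) j) = cv q (fun _ => 1) := by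
      have : cv (cb al) (cb (1-al)) = fun _ => 1 := by
        funext m
        rw [cv, cb_conv, show al + (1 - al) = 1 by ring, cb_one]
      rw [show (fun j => cv q (cb al) j) = cv q (cb al) from rfl, cv_comm, cv_assoc, this]
    rw [e2, cv_one]
    ring
  simp_rw [e] at h1
  have h2 := (h1.add (tendsto_const_nhds (x := (1:ℝ)))).mul_const (1/L)
  rw [zero_add, one_mul] at h2
  refine h2.congr (fun n => ?_)
  have hp : 0 < cb (1-al+1) n := cb_pos (by linarith) n
  field_simp
  ring

/-- monotone density theorem -/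
theorem mono_density {β G : ℝ} (hβ : 0 < β) (hq : Antitone q)
    (h : Tendsto (fun n : ℕ => (∑ k ∈ range (n+1), q k) / (n:ℝ)^β) atTop (𝓝 G)) :
    Tendsto (fun n : ℕ => q n * (n:ℝ)^(1-β)) atTop (𝓝 (β * G)) := by
  set S : ℕ → ℝ := fun n => ∑ k ∈ range (n+1), q k with hS
  have hscale : ∀ (m : ℕ → ℕ) (s : ℝ), 0 < s → Tendsto m atTop atTop →
      Tendsto (fun n : ℕ => (m n : ℝ) / n) atTop (𝓝 s) →
      Tendsto (fun n : ℕ => S (m n) / (n:ℝ)^β) atTop (𝓝 (G * s^β)) := by
    intro m s hs hm hms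
    have h1 := (h.comp hm).mul (hms.rpow_const (p := β) (Or.inr hβ.le))
    refine h1.congr' ?_
    filter_upwards [eventually_gt_atTop 0, hm.eventually (eventually_gt_atTop 0)] with n hn hmn
    have hn' : (0:ℝ) < n := by exact_mod_cast hn
    have hm' : (0:ℝ) < m n := by exact_mod_cast hmn
    have h3 := (Real.rpow_pos_of_pos hn' β).ne'
    have h4 := (Real.rpow_pos_of_pos hm' β).ne'
    rw [Function.comp_apply, Real.div_rpow hm'.le hn'.le]
    field_simp
    simp only [hS]
  have hder : HasDerivAt (fun x : ℝ => G * x^β) (β * G) 1 := by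
    have := (Real.hasDerivAt_rpow_const (x := 1) (p := β) (Or.inl one_ne_zero)).const_mul G
    simpa [mul_comm] using this
  rw [hasDerivAt_iff_tendsto_slope] at hder
  rw [Metric.tendsto_nhds]
  intro ε hε
  have hev := hder.eventually (Metric.ball_mem_nhds (β * G) (half_pos hε))
  rw [eventually_nhdsWithin_iff, Metric.eventually_nhds_iff] at hev
  obtain ⟨δ0, hδ0, hball⟩ := hev
  set δ := min (δ0/2) (1/2) with hδ
  have hδp : 0 < δ := by positivity
  have hδ1 : δ ≤ 1/2 := min_le_right _ _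
  have hδ2 : δ < δ0 := by
    have := min_le_left (δ0/2) (1/2 : ℝ)
    rw [← hδ] at this
    linarith
  have hup := hball (y := 1 + δ) (by rw [Real.dist_eq]; simpa [abs_of_pos hδp] using hδ2)
    (by simp [hδp.ne'])
  have hdn := hball (y := 1 - δ) (by rw [Real.dist_eq]; simpa [abs_of_pos hδp] using hδ2)
    (by simp [hδp.ne'])
  -- integer shifts
  set k : ℕ → ℕ := fun n => ⌊δ * n⌋₊ with hk
  have hkn : Tendsto (fun n : ℕ => (k n : ℝ) / n) atTop (𝓝 δ) := by
    have := (tendsto_nat_floor_mul_div_atTop hδp.le).comp tendsto_natCast_atTop_atTop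
    simpa [hk, Function.comp_def] using this
  have hkle : ∀ n, k n ≤ n := by
    intro n
    have : ((k n : ℕ) : ℝ) ≤ δ * n := Nat.floor_le (by positivity)
    have h2 : δ * n ≤ n := by
      have : (0:ℝ) ≤ n := by positivity
      nlinarith
    exact_mod_cast this.trans h2
  have hone : Tendsto (fun n : ℕ => (n : ℝ) / n) atTop (𝓝 1) := by
    refine tendsto_const_nhds.congr' ?_
    filter_upwards [eventually_gt_atTop 0] with n hn
    have hn' : (n:ℝ) ≠ 0 := by exact_mod_cast hn.ne'
    rw [div_self hn']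
  have hplus : Tendsto (fun n : ℕ => ((n + k n : ℕ) : ℝ) / n) atTop (𝓝 (1 + δ)) := by
    have := hone.add hkn
    refine this.congr (fun n => ?_)
    push_cast
    ring
  have hminus : Tendsto (fun n : ℕ => ((n - k n : ℕ) : ℝ) / n) atTop (𝓝 (1 - δ)) := by
    have := hone.sub hkn
    refine this.congr (fun n => ?_)
    rw [Nat.cast_sub (hkle n)]
    ring
  have hminf : Tendsto (fun n : ℕ => n - k n) atTop atTop := by
    rw [tendsto_atTop]
    intro M
    have h1 : ∀ᶠ n : ℕ in atTop, (2 * M : ℕ) ≤ n := eventually_ge_atTop _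
    filter_upwards [h1] with n hn
    have h2 : ((k n : ℕ) : ℝ) ≤ δ * n := Nat.floor_le (by positivity)
    have h3 : δ * n ≤ n / 2 := by
      have : (0:ℝ) ≤ n := by positivity
      nlinarith
    have h4 : (2 : ℝ) * k n ≤ n := by linarith
    have h5 : 2 * k n ≤ n := by exact_mod_cast h4
    omega
  have hS1 := hscale (fun n => n + k n) (1+δ) (by linarith)
    (tendsto_atTop_mono (fun n => Nat.le_add_right _ _) tendsto_id) hplus
  have hS0 := hscale (fun n => n) 1 one_pos tendsto_id hone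
  have hS2 := hscale (fun n => n - k n) (1-δ) (by linarith) hminf hminus
  have hlow : Tendsto (fun n : ℕ => (S (n + k n) - S n) / (n:ℝ)^β / ((k n : ℝ) / n)) atTop
      (𝓝 ((G * (1+δ)^β - G * 1^β)/δ)) := by
    have := (hS1.sub hS0).div hkn hδp.ne'
    refine this.congr (fun n => ?_)
    simp only [Pi.div_apply, sub_div]
  have hhigh : Tendsto (fun n : ℕ => (S n - S (n - k n)) / (n:ℝ)^β / ((k n : ℝ) / n)) atTop
      (𝓝 ((G * 1^β - G * (1-δ)^β)/δ)) := by
    have := (hS0.sub hS2).div hkn hδp.ne'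
    refine this.congr (fun n => ?_)
    simp only [Pi.div_apply, sub_div]
  have hl1 := hlow.eventually (Metric.ball_mem_nhds _ (half_pos hε))
  have hh1 := hhigh.eventually (Metric.ball_mem_nhds _ (half_pos hε))
  have hkpos : ∀ᶠ n : ℕ in atTop, 0 < k n := by
    have := hkn.eventually (lt_mem_nhds hδp)
    filter_upwards [this] with n hn
    by_contra h0
    have : k n = 0 := by omega
    rw [this] at hn
    simp at hn
  filter_upwards [hl1, hh1, hkpos, eventually_gt_atTop 0] with n hln hhn hkp hn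
  have hn' : (0:ℝ) < n := by exact_mod_cast hn
  have hkp' : (0:ℝ) < k n := by exact_mod_cast hkp
  have hpw := Real.rpow_pos_of_pos hn' β
  have b1 : S (n + k n) - S n ≤ k n * q n := by
    simp only [hS]
    rw [show n + k n + 1 = (n+1) + k n by ring, sum_range_add, add_sub_cancel_left]
    calc ∑ i ∈ range (k n), q (n + 1 + i) ≤ ∑ i ∈ range (k n), q n :=
          sum_le_sum (fun i _ => hq (by omega))
      _ = k n * q n := by simp
  have b2 : k n * q n ≤ S n - S (n - k n) := by
    simp only [hS]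
    have hle := hkle n
    rw [show n + 1 = (n - k n + 1) + k n by omega, sum_range_add, add_sub_cancel_left]
    calc (k n : ℝ) * q n = ∑ i ∈ range (k n), q n := by simp
      _ ≤ ∑ i ∈ range (k n), q (n - k n + 1 + i) :=
          sum_le_sum (fun i hi => hq (by have := mem_range.1 hi; omega))
  have e0 : q n * (n:ℝ)^(1-β) = (k n * q n) / (n:ℝ)^β / ((k n : ℝ)/n) := by
    rw [Real.rpow_sub hn', Real.rpow_one]
    field_simp
  have c1 : (S (n + k n) - S n) / (n:ℝ)^β / ((k n : ℝ)/n) ≤ q n * (n:ℝ)^(1-β) := by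
    rw [e0]; gcongr
  have c2 : q n * (n:ℝ)^(1-β) ≤ (S n - S (n - k n)) / (n:ℝ)^β / ((k n : ℝ)/n) := by
    rw [e0]; gcongr
  rw [slope_def_field, Real.dist_eq] at hup hdn
  rw [Real.dist_eq] at hln hhn ⊢
  have s1 : (G * (1 + δ) ^ β - G * 1 ^ β) / (1 + δ - 1) = (G * (1+δ)^β - G * 1^β)/δ := by
    congr 1; ring
  have s2 : (G * (1 - δ) ^ β - G * 1 ^ β) / (1 - δ - 1) = (G * 1^β - G * (1-δ)^β)/δ := by
    rw [show 1 - δ - 1 = -δ by ring, div_neg, ← neg_div]
    congr 1; ring
  rw [s1] at hup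
  rw [s2] at hdn
  rw [abs_lt] at *
  constructor <;> linarith

theorem RT.tail (h : RT u q al b) :
    Tendsto (fun n : ℕ => q n * (n:ℝ)^al) atTop (𝓝 (Real.sin (Real.pi * al) / (Real.pi * b))) := by
  have hβ : 0 < 1 - al := by linarith [h.h1]
  have h1 := h.sum_tendsto
  have h2 := cb_tendsto (b := 1 - al + 1) (by linarith)
  have h3 := h1.mul h2
  have h4 : Tendsto (fun n : ℕ => (∑ k ∈ range (n+1), q k) / (n:ℝ)^(1-al)) atTop
      (𝓝 (1 / (b * Real.Gamma al) * (1 / Real.Gamma (1 - al + 1)))) := by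
    refine h3.congr' ?_
    filter_upwards [eventually_gt_atTop 0] with n hn
    have hn' : (0:ℝ) < n := by exact_mod_cast hn
    have hp : 0 < cb (1-al+1) n := cb_pos (by linarith) n
    rw [show 1 - (1 - al + 1) = -(1 - al) by ring, Real.rpow_neg hn'.le]
    field_simp
  have h5 := mono_density hβ h.hmono h4
  rw [show 1 - (1 - al) = al by ring] at h5
  convert h5 using 2
  have hg := Real.Gamma_mul_Gamma_one_sub al
  have hg1 := (Real.Gamma_pos_of_pos h.h0)
  have hg2 := (Real.Gamma_pos_of_pos hβ)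
  have hb := h.hb
  have hsin : 0 < Real.sin (Real.pi * al) := by
    apply Real.sin_pos_of_pos_of_lt_pi
    · exact mul_pos Real.pi_pos h.h0
    · have := h.h1
      nlinarith [Real.pi_pos]
  rw [Real.Gamma_add_one hβ.ne']
  have hpi := Real.pi_pos
  rw [eq_div_iff hsin.ne'] at hg
  field_simp
  linarith

end CutR
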