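import Pool.Agent.CutR.Riem

/-! One gap: the generalised arcsine law. -/

set_option autoImplicit false

namespace CutLim

open Filter Topology Finset MeasureTheory

variable {u k : ℕ → ℝ} {a b : ℝ}

theorem u_bound (h : Ren u k) (ha : 0 < a) (ha1 : a < 1)
    (hu : Tendsto (fun n : ℕ => (n : ℝ) ^ (1 - a) * u n) atTop (𝓝 b)) :
    ∃ C : ℝ, 0 < C ∧ ∀ n : ℕ, u n ≤ C * ((n : ℝ) + 1) ^ (a - 1) := by
  obtain ⟨B, hB⟩ := hu.bddAbove_range
  refine ⟨2 * max B 1, by positivity, fun n => ?_⟩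
  have hp : (0:ℝ) < (n:ℝ) + 1 := by positivity
  have hpw := Real.rpow_pos_of_pos hp (1 - a)
  rw [show a - 1 = -(1 - a) by ring, Real.rpow_neg hp.le, ← div_eq_mul_inv, le_div_iff₀ hpw]
  rcases Nat.eq_zero_or_pos n with rfl | hn
  · simp only [h.u0, Nat.cast_zero, zero_add, Real.one_rpow, mul_one]
    have := le_max_right B 1
    linarith
  · have hn' : (1:ℝ) ≤ n := by exact_mod_cast hn
    have h1 : (n : ℝ) ^ (1 - a) * u n ≤ B := hB ⟨n, rfl⟩
    have h2 : ((n:ℝ) + 1) ^ (1 - a) ≤ 2 * (n:ℝ)^(1-a) := by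
      calc ((n:ℝ) + 1) ^ (1 - a) ≤ (2 * (n:ℝ)) ^ (1 - a) :=
            Real.rpow_le_rpow hp.le (by linarith) (by linarith)
        _ = 2^(1-a) * (n:ℝ)^(1-a) := Real.mul_rpow (by norm_num) (by linarith)
        _ ≤ 2 * (n:ℝ)^(1-a) := by
            apply mul_le_mul_of_nonneg_right _ (by positivity)
            calc (2:ℝ)^(1-a) ≤ 2^(1:ℝ) :=
                  Real.rpow_le_rpow_of_exponent_le one_le_two (by linarith)
              _ = 2 := by norm_num
    have h3 := u_nonneg h n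
    have h4 := le_max_left B 1
    calc u n * ((n:ℝ) + 1) ^ (1 - a) ≤ u n * (2 * (n:ℝ)^(1-a)) := mul_le_mul_of_nonneg_left h2 h3
      _ = 2 * ((n : ℝ) ^ (1 - a) * u n) := by ring
      _ ≤ 2 * max B 1 := by linarith

theorem KK_bound (h : Ren u k) (ha : 0 < a) (ha1 : a < 1) (hb : 0 < b)
    (hu : Tendsto (fun n : ℕ => (n : ℝ) ^ (1 - a) * u n) atTop (𝓝 b)) :
    ∃ C : ℝ, 0 < C ∧ ∀ n : ℕ, ∀ t : ℝ, 0 < t → t ≤ n → KK k n ≤ C * t ^ (-a) := by
  obtain ⟨B, hB⟩ := (KK_tendsto h ha ha1 hb hu).bddAbove_range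
  refine ⟨max B 1, by positivity, fun n t ht htn => ?_⟩
  have hn' : (0:ℝ) < n := by linarith
  have hpw := Real.rpow_pos_of_pos ht a
  rw [Real.rpow_neg ht.le, ← div_eq_mul_inv, le_div_iff₀ hpw]
  have h1 : (n : ℝ) ^ a * KK k n ≤ B := hB ⟨n, rfl⟩
  have h2 : t ^ a ≤ (n:ℝ)^a := Real.rpow_le_rpow ht.le htn ha.le
  have h3 := KK_nonneg h n
  calc KK k n * t ^ a ≤ KK k n * (n:ℝ)^a := mul_le_mul_of_nonneg_left h2 h3
    _ = (n : ℝ) ^ a * KK k n := by ring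
    _ ≤ B := h1
    _ ≤ max B 1 := le_max_left _ _

/-- scaling: `n_T / T → s > 0` -/
theorem scale_tendsto {f : ℕ → ℝ} {p c : ℝ} (hf : Tendsto (fun n : ℕ => (n : ℝ) ^ p * f n) atTop (𝓝 c))
    {m : ℕ → ℕ} {s : ℝ} (hs : 0 < s) (hm : Tendsto (fun T : ℕ => (m T : ℝ) / T) atTop (𝓝 s)) :
    Tendsto (fun T : ℕ => (T : ℝ) ^ p * f (m T)) atTop (𝓝 (c * s ^ (-p))) := by
  have hinf : Tendsto m atTop atTop := by
    have h1 : Tendsto (fun T : ℕ => (m T : ℝ) / T * T) atTop atTop :=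
      hm.pos_mul_atTop hs tendsto_natCast_atTop_atTop
    have h2 : Tendsto (fun T : ℕ => (m T : ℝ)) atTop atTop := by
      refine h1.congr' ?_
      filter_upwards [eventually_gt_atTop 0] with T hT
      have hT' : (T:ℝ) ≠ 0 := by exact_mod_cast hT.ne'
      field_simp
    exact tendsto_natCast_atTop_iff.1 h2
  have h1 := (hf.comp hinf).mul (hm.rpow_const (p := -p) (Or.inl hs.ne'))
  refine h1.congr' ?_
  filter_upwards [eventually_gt_atTop 0, hinf.eventually (eventually_gt_atTop 0)] with T hT hmT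
  have hT' : (0:ℝ) < T := by exact_mod_cast hT
  have hm' : (0:ℝ) < m T := by exact_mod_cast hmT
  simp only [Function.comp_apply]
  rw [Real.rpow_neg (by positivity), Real.div_rpow hm'.le hT'.le]
  have h3 := (Real.rpow_pos_of_pos hT' p).ne'
  have h4 := (Real.rpow_pos_of_pos hm' p).ne'
  field_simp

theorem floor_ratio {s : ℝ} (hs : 0 ≤ s) : Tendsto (fun T : ℕ => (⌊s * T⌋₊ : ℝ) / T) atTop (𝓝 s) := by
  have := (tendsto_nat_floor_mul_div_atTop hs).comp tendsto_natCast_atTop_atTop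
  simpa [Function.comp_def] using this

theorem gap_ratio {s y : ℝ} (hs : 0 ≤ s) (hsy : s < y) :
    Tendsto (fun T : ℕ => ((⌊y * T⌋₊ + 1 - ⌊s * T⌋₊ : ℕ) : ℝ) / T) atTop (𝓝 (y - s)) := by
  have h1 := ((floor_ratio (hs.trans hsy.le)).add tendsto_inv_atTop_nhds_zero_nat).sub (floor_ratio hs)
  rw [add_zero] at h1
  refine h1.congr (fun T => ?_)
  have hle : ⌊s * T⌋₊ ≤ ⌊y * T⌋₊ + 1 := by
    have : ⌊s * T⌋₊ ≤ ⌊y * T⌋₊ := Nat.floor_le_floor (by gcongr)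
    omega
  rw [Nat.cast_sub hle]
  push_cast
  ring

/-- one interval -/
theorem av_one_lim' (h : Ren u k) (ha : 0 < a) (ha1 : a < 1) (hb : 0 < b)
    (hu : Tendsto (fun n : ℕ => (n : ℝ) ^ (1 - a) * u n) atTop (𝓝 b)) {x y : ℝ} (hx : 0 ≤ x) (hxy : x < y) :
    Tendsto (fun T : ℕ => ∑ i ∈ Icc 0 ⌊x * T⌋₊, u i * KK k (⌊y * T⌋₊ + 1 - i)) atTop
      (𝓝 ((Real.Gamma a * Real.Gamma (1 - a))⁻¹ * ∫ r in (0 : ℝ)..(x / y), r ^ (a - 1) * (1 - r) ^ (-a))) := by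
  have hK := KK_tendsto h ha ha1 hb hu
  have hy : 0 < y := by linarith
  set c := 1 / (b * Real.Gamma a * Real.Gamma (1 - a)) with hc
  obtain ⟨C1, hC1, hu1⟩ := u_bound h ha ha1 hu
  obtain ⟨C2, hC2, hK2⟩ := KK_bound h ha ha1 hb hu
  have hrie := CutR.riemann (g := fun T j => u j * KK k (⌊y * T⌋₊ + 1 - j))
    (G := fun s => (b * s ^ (-(1 - a))) * (c * (y - s) ^ (-a)))
    (bd := fun s => (C1 * s ^ (a - 1)) * (C2 * (y - x) ^ (-a))) hx
    (by
      intro s hs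
      have h1 := scale_tendsto hu hs.1 (floor_ratio hs.1.le)
      have h2 := scale_tendsto hK (sub_pos.2 (hs.2.trans hxy)) (gap_ratio hs.1.le (hs.2.trans hxy))
      refine (h1.mul h2).congr' ?_
      filter_upwards [eventually_gt_atTop 0] with T hT
      have hT' : (0:ℝ) < T := by exact_mod_cast hT
      have e : (T:ℝ)^(1-a) * (T:ℝ)^a = T := by
        rw [← Real.rpow_add hT', show 1 - a + a = 1 by ring, Real.rpow_one]
      calc (T:ℝ)^(1-a) * u ⌊s * T⌋₊ * ((T:ℝ)^a * KK k (⌊y * T⌋₊ + 1 - ⌊s * T⌋₊))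
          = ((T:ℝ)^(1-a) * (T:ℝ)^a) * (u ⌊s * T⌋₊ * KK k (⌊y * T⌋₊ + 1 - ⌊s * T⌋₊)) := by ring
        _ = _ := by rw [e])
    (by
      filter_upwards [eventually_gt_atTop 0] with T hT s hs
      have hT' : (0:ℝ) < T := by exact_mod_cast hT
      have hsT : 0 < s * T := mul_pos hs.1 hT'
      have e : (T:ℝ)^(1-a) * (T:ℝ)^a = T := by
        rw [← Real.rpow_add hT', show 1 - a + a = 1 by ring, Real.rpow_one]
      have hun := u_nonneg h ⌊s * T⌋₊
      have hKn := KK_nonneg h (⌊y * T⌋₊ + 1 - ⌊s * T⌋₊)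
      have b1 : (T:ℝ)^(1-a) * u ⌊s * T⌋₊ ≤ C1 * s ^ (a-1) := by
        have h1 := hu1 ⌊s * T⌋₊
        have h2 : ((⌊s * T⌋₊ : ℝ) + 1)^(a-1) ≤ (s * T)^(a-1) :=
          Real.rpow_le_rpow_of_nonpos hsT (Nat.lt_floor_add_one _).le (by linarith)
        rw [Real.mul_rpow hs.1.le hT'.le] at h2
        have h3 : (T:ℝ)^(1-a) * (T:ℝ)^(a-1) = 1 := by
          rw [← Real.rpow_add hT', show 1 - a + (a-1) = 0 by ring, Real.rpow_zero]
        calc (T:ℝ)^(1-a) * u ⌊s * T⌋₊ ≤ (T:ℝ)^(1-a) * (C1 * (s^(a-1) * (T:ℝ)^(a-1))) := by gcongr; exact h1.trans (by gcongr)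
          _ = C1 * s^(a-1) * ((T:ℝ)^(1-a) * (T:ℝ)^(a-1)) := by ring
          _ = C1 * s ^ (a-1) := by rw [h3, mul_one]
      have b2 : (T:ℝ)^a * KK k (⌊y * T⌋₊ + 1 - ⌊s * T⌋₊) ≤ C2 * (y - x)^(-a) := by
        have hyx : 0 < (y - x) * T := mul_pos (by linarith) hT'
        have h1 := hK2 (⌊y * T⌋₊ + 1 - ⌊s * T⌋₊) ((y - x) * T) hyx (by
          have hle : ⌊s * T⌋₊ ≤ ⌊y * T⌋₊ + 1 := by
            have : ⌊s * T⌋₊ ≤ ⌊y * T⌋₊ := Nat.floor_le_floor (by have := hs.2; gcongr; linarith)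
            omega
          rw [Nat.cast_sub hle]
          push_cast
          have f1 := Nat.lt_floor_add_one (y * T)
          have f2 := Nat.floor_le hsT.le
          have f3 : s * T ≤ x * T := by have := hs.2; gcongr
          linarith)
        rw [Real.mul_rpow (by linarith) hT'.le] at h1
        have h3 : (T:ℝ)^a * (T:ℝ)^(-a) = 1 := by
          rw [← Real.rpow_add hT', show a + -a = 0 by ring, Real.rpow_zero]
        calc (T:ℝ)^a * KK k (⌊y * T⌋₊ + 1 - ⌊s * T⌋₊) ≤ (T:ℝ)^a * (C2 * ((y - x)^(-a) * (T:ℝ)^(-a))) := by gcongr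
          _ = C2 * (y - x)^(-a) * ((T:ℝ)^a * (T:ℝ)^(-a)) := by ring
          _ = C2 * (y - x)^(-a) := by rw [h3, mul_one]
      have e2 : (T:ℝ) * (u ⌊s * T⌋₊ * KK k (⌊y * T⌋₊ + 1 - ⌊s * T⌋₊))
          = ((T:ℝ)^(1-a) * u ⌊s * T⌋₊) * ((T:ℝ)^a * KK k (⌊y * T⌋₊ + 1 - ⌊s * T⌋₊)) := by
        calc (T:ℝ) * (u ⌊s * T⌋₊ * KK k (⌊y * T⌋₊ + 1 - ⌊s * T⌋₊))
            = ((T:ℝ)^(1-a) * (T:ℝ)^a) * (u ⌊s * T⌋₊ * KK k (⌊y * T⌋₊ + 1 - ⌊s * T⌋₊)) := by rw [e]
          _ = _ := by ring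
      rw [e2, abs_of_nonneg (by positivity)]
      have := Real.rpow_nonneg hs.1.le (a-1)
      exact mul_le_mul b1 b2 (by positivity) (by positivity))
    (by
      apply IntervalIntegrable.mul_const
      apply IntervalIntegrable.const_mul
      exact intervalIntegral.intervalIntegrable_rpow' (by linarith))
  -- the last term
  have hlast : Tendsto (fun T : ℕ => u ⌊x * T⌋₊ * KK k (⌊y * T⌋₊ + 1 - ⌊x * T⌋₊)) atTop (𝓝 0) := by
    have h2 : Tendsto (fun T : ℕ => KK k (⌊y * T⌋₊ + 1 - ⌊x * T⌋₊)) atTop (𝓝 0) := by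
      apply (KK_zero_lim h).comp
      have h1 : Tendsto (fun T : ℕ => ((⌊y * T⌋₊ + 1 - ⌊x * T⌋₊ : ℕ) : ℝ) / T * T) atTop atTop :=
        (gap_ratio hx hxy).pos_mul_atTop (by linarith) tendsto_natCast_atTop_atTop
      have h2 : Tendsto (fun T : ℕ => ((⌊y * T⌋₊ + 1 - ⌊x * T⌋₊ : ℕ) : ℝ)) atTop atTop := by
        refine h1.congr' ?_
        filter_upwards [eventually_gt_atTop 0] with T hT
        have hT' : (T:ℝ) ≠ 0 := by exact_mod_cast hT.ne'
        field_simp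
      exact tendsto_natCast_atTop_iff.1 h2
    refine squeeze_zero (fun T => mul_nonneg (u_nonneg h _) (KK_nonneg h _)) (fun T => ?_) h2
    exact mul_le_of_le_one_left (KK_nonneg h _) (u_le_one h _)
  have hsum := hrie.add hlast
  rw [add_zero] at hsum
  have hint : ∫ s in (0:ℝ)..x, (b * s ^ (-(1 - a))) * (c * (y - s) ^ (-a))
      = (Real.Gamma a * Real.Gamma (1 - a))⁻¹ * ∫ r in (0 : ℝ)..(x / y), r ^ (a - 1) * (1 - r) ^ (-a) := by
    have hsub := intervalIntegral.integral_comp_mul_left (a := 0) (b := x / y)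
      (fun s => (b * s ^ (-(1 - a))) * (c * (y - s) ^ (-a))) hy.ne'
    rw [mul_zero, mul_div_cancel₀ _ hy.ne', smul_eq_mul] at hsub
    have hg1 := (Real.Gamma_pos_of_pos ha)
    have hg2 := (Real.Gamma_pos_of_pos (show 0 < 1 - a by linarith))
    have e1 : ∫ s in (0:ℝ)..x, (b * s ^ (-(1 - a))) * (c * (y - s) ^ (-a))
        = y * ∫ r in (0 : ℝ)..(x / y), (b * (y * r) ^ (-(1 - a))) * (c * (y - y * r) ^ (-a)) := by
      rw [hsub, ← mul_assoc, mul_inv_cancel₀ hy.ne', one_mul]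
    rw [e1, ← intervalIntegral.integral_const_mul, ← intervalIntegral.integral_const_mul]
    apply intervalIntegral.integral_congr
    intro r hr
    rw [Set.uIcc_of_le (by positivity)] at hr
    have hr1 : r ≤ 1 := hr.2.trans (by rw [div_le_one hy]; exact hxy.le)
    simp only
    rw [Real.mul_rpow hy.le hr.1, show y - y * r = y * (1 - r) by ring,
      Real.mul_rpow hy.le (by linarith), show -(1 - a) = a - 1 by ring]
    have e3 : y * (y^(a-1) * y^(-a)) = 1 := by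
      rw [← Real.rpow_add hy, show a - 1 + -a = -1 by ring, Real.rpow_neg_one]
      field_simp
    have e4 : b * c = (Real.Gamma a * Real.Gamma (1 - a))⁻¹ := by
      rw [hc]
      field_simp
    calc y * (b * (y ^ (a - 1) * r ^ (a - 1)) * (c * (y ^ (-a) * (1 - r) ^ (-a))))
        = (y * (y^(a-1) * y^(-a))) * (b * c) * (r ^ (a - 1) * (1 - r) ^ (-a)) := by ring
      _ = _ := by rw [e3, e4, one_mul]
  rw [hint] at hsum
  refine hsum.congr (fun T => ?_)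
  rw [← Nat.range_succ_eq_Icc_zero, sum_range_succ]

end CutLim
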