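import Mathlib

open Filter Topology Finset

namespace CutR

/-- The coefficients of `(1-x)^(-b)`. -/
noncomputable def cb (b : ℝ) (n : ℕ) : ℝ := (∏ i ∈ range n, (b + i)) / (n.factorial : ℝ)

lemma cb_zero (b : ℝ) : cb b 0 = 1 := by simp [cb]

lemma cb_succ (b : ℝ) (n : ℕ) : cb b (n+1) = cb b n * ((b + n) / (n + 1)) := by
  have h1 : ((n.factorial : ℕ) : ℝ) ≠ 0 := by exact_mod_cast n.factorial_ne_zero
  have h2 : ((n : ℝ) + 1) ≠ 0 := by positivity
  rw [cb, cb, prod_range_succ, Nat.factorial_succ]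
  push_cast
  field_simp

lemma cb_pos {b : ℝ} (hb : 0 < b) (n : ℕ) : 0 < cb b n := by
  rw [cb]
  apply div_pos
  · exact prod_pos (fun i _ => by positivity)
  · exact_mod_cast n.factorial_pos

lemma cb_choose (b : ℝ) (n : ℕ) : Ring.choose (b + n - 1) n = cb b n := by
  induction n generalizing b with
  | zero => simp [cb_zero]
  | succ n ih =>
    have h1 : ((n : ℝ) + 1) ≠ 0 := by positivity
    have key : Ring.choose (b + ((n+1 : ℕ) : ℝ) - 1) (n+1) = Ring.multichoose b (n+1) := by
      rw [Ring.choose]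
      congr 1
      push_cast
      ring
    have key' : Ring.choose (b + (n : ℝ) - 1) n = Ring.multichoose b n := by
      rw [Ring.choose]
      congr 1
      ring
    rw [key, cb_succ, ← ih b, key']
    have h3 := Ring.factorial_nsmul_multichoose_eq_ascPochhammer b (n+1)
    have h4 := Ring.factorial_nsmul_multichoose_eq_ascPochhammer b n
    rw [ascPochhammer_succ_right, Polynomial.smeval_mul, ← h4] at h3
    simp only [nsmul_eq_mul, Nat.factorial_succ, Nat.cast_mul] at h3
    have h5 : (n.factorial : ℝ) ≠ 0 := by exact_mod_cast n.factorial_ne_zero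
    have h6 : Polynomial.smeval (Polynomial.X + (n : Polynomial ℕ)) b = b + n := by
      rw [Polynomial.smeval_add, Polynomial.smeval_X, pow_one]
      congr 1
      have : (n : Polynomial ℕ) = Polynomial.C n := rfl
      rw [this, Polynomial.smeval_C]
      simp
    rw [h6] at h3
    push_cast at h3
    field_simp
    apply mul_left_cancel₀ h5
    linear_combination h3

lemma cb_hasSum (b : ℝ) {x : ℝ} (hx : |x| < 1) :
    HasSum (fun n => cb b n * x^n) (1 / (1 - x)^b) := by
  have h := (Real.one_div_one_sub_rpow_hasFPowerSeriesOnBall_zero b).hasSum (y := x)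
    (by simpa [enorm_eq_nnnorm, ← NNReal.coe_lt_coe] using hx)
  simp only [zero_add, FormalMultilinearSeries.ofScalars_apply_eq, cb_choose, smul_eq_mul] at h
  exact h

lemma cb_sum (b : ℝ) (n : ℕ) : ∑ k ∈ range (n+1), cb b k = cb (b+1) n := by
  have hs : ∀ n : ℕ, cb (b+1) n * b = cb b (n+1) * (n+1) := by
    intro n
    have h1 : ((n.factorial : ℕ) : ℝ) ≠ 0 := by exact_mod_cast n.factorial_ne_zero
    have h2 : ((n : ℝ) + 1) ≠ 0 := by positivity
    rw [cb, cb, prod_range_succ' _ n, Nat.factorial_succ]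
    have : ∀ i ∈ range n, b + 1 + (i:ℝ) = b + ((i+1 : ℕ) : ℝ) := by
      intro i _; push_cast; ring
    rw [prod_congr rfl this]
    push_cast
    field_simp
    ring
  induction n with
  | zero => simp [cb_zero]
  | succ n ih =>
    rw [sum_range_succ, ih, cb_succ (b+1) n]
    have h2 : ((n : ℝ) + 1) ≠ 0 := by positivity
    have := hs n
    field_simp
    linear_combination -this

lemma cb_tendsto {b : ℝ} (hb : 0 < b) :
    Tendsto (fun n : ℕ => cb b n * (n:ℝ)^(1-b)) atTop (𝓝 (1 / Real.Gamma b)) := by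
  have h := (Real.GammaSeq_tendsto_Gamma b).inv₀ (Real.Gamma_pos_of_pos hb).ne'
  have h2 : Tendsto (fun n : ℕ => (n : ℝ) / (n + b)) atTop (𝓝 1) := by
    have : Tendsto (fun n : ℕ => 1 / (1 + b * ((n : ℝ))⁻¹)) atTop (𝓝 (1 / (1 + b * 0))) := by
      apply Tendsto.div tendsto_const_nhds
      · apply Tendsto.add tendsto_const_nhds
        exact (tendsto_inv_atTop_zero.comp tendsto_natCast_atTop_atTop).const_mul b
      · simp
    rw [mul_zero, add_zero, div_one] at this
    refine this.congr' ?_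
    filter_upwards [eventually_gt_atTop 0] with n hn
    have : (0:ℝ) < n := by exact_mod_cast hn
    field_simp
  have h3 := h.mul h2
  rw [mul_one, ← one_div] at h3
  refine h3.congr' ?_
  filter_upwards [eventually_gt_atTop 0] with n hn
  have hn' : (0:ℝ) < n := by exact_mod_cast hn
  rw [Real.GammaSeq, cb, prod_range_succ, Real.rpow_sub hn', Real.rpow_one]
  have h1 : ((n.factorial : ℕ) : ℝ) ≠ 0 := by exact_mod_cast n.factorial_ne_zero
  have h4 : (∏ i ∈ range n, (b + (i:ℝ))) ≠ 0 := (prod_pos (fun i _ => by positivity)).ne'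
  have h5 : (n:ℝ)^b ≠ 0 := (Real.rpow_pos_of_pos hn' b).ne'
  have h6 : b + (n:ℝ) ≠ 0 := by positivity
  have h7 : (n:ℝ) + b ≠ 0 := by positivity
  rw [inv_div]
  field_simp
  ring

/-- Comparison with the binomial coefficients. -/
lemma equiv_cb {a : ℕ → ℝ} {b A : ℝ} (hb : 0 < b)
    (ha : Tendsto (fun n : ℕ => a n * (n:ℝ)^(1-b)) atTop (𝓝 A)) :
    Tendsto (fun n : ℕ => a n / cb b n) atTop (𝓝 (A * Real.Gamma b)) := by
  have hG := (Real.Gamma_pos_of_pos hb).ne'
  have h := ha.div (cb_tendsto hb) (by simpa using hG)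
  rw [div_div_eq_mul_div, div_one] at h
  refine h.congr' ?_
  filter_upwards [eventually_gt_atTop 0] with n hn
  have hn' : (0:ℝ) < n := by exact_mod_cast hn
  have h5 : (n:ℝ)^(1-b) ≠ 0 := (Real.rpow_pos_of_pos hn' _).ne'
  have h6 := (cb_pos hb n).ne'
  simp only [Pi.div_apply]
  field_simp

end CutR
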