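import Pool.Agent.CutLim.B

open Filter Topology Finset MeasureTheory

namespace CutR

/-- a sum as the integral of a step function -/
lemma sum_eq_integral (f : ℕ → ℝ) (T : ℕ) (hT : 0 < T) (n : ℕ) :
    ∑ j ∈ range n, f j = ∫ s in (0:ℝ)..((n:ℝ)/T), (T:ℝ) * f ⌊s * T⌋₊ := by
  have hT' : (0:ℝ) < T := by exact_mod_cast hT
  have hpt : ∀ (m : ℕ), ∀ s ∈ Set.Ioo ((m:ℝ)/T) (((m:ℝ)+1)/T), (T:ℝ) * f ⌊s * T⌋₊ = (T:ℝ) * f m := by
    intro m s hs
    have h1 : (m:ℝ) ≤ s * T := by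
      have := (div_lt_iff₀ hT').1 hs.1
      exact this.le
    have h2 : s * T < m + 1 := (lt_div_iff₀ hT').1 hs.2
    rw [(Nat.floor_eq_iff (by have : (0:ℝ) ≤ m := by positivity
                              linarith)).2 ⟨h1, h2⟩]
  have hle : ∀ m : ℕ, (m:ℝ)/T ≤ ((m:ℝ)+1)/T := fun m => by gcongr; linarith
  have hint : ∀ m : ℕ, IntervalIntegrable (fun s : ℝ => (T:ℝ) * f ⌊s * T⌋₊) volume
      ((m:ℝ)/T) (((m:ℝ)+1)/T) := by
    intro m
    rw [intervalIntegrable_iff_integrableOn_Ioo_of_le (hle m)]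
    refine (integrableOn_const (C := (T:ℝ) * f m) (by simp)).congr_fun ?_ measurableSet_Ioo
    intro s hs
    exact (hpt m s hs).symm
  induction n with
  | zero => simp
  | succ n ih =>
    have hprev : IntervalIntegrable (fun s : ℝ => (T:ℝ) * f ⌊s * T⌋₊) volume 0 ((n:ℝ)/T) := by
      have := IntervalIntegrable.trans_iterate (f := fun s : ℝ => (T:ℝ) * f ⌊s * T⌋₊)
        (μ := volume) (a := fun m : ℕ => (m:ℝ)/T) (n := n) (fun m _ => by
          have := hint m
          push_cast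
          exact this)
      simpa using this
    rw [sum_range_succ, ih]
    push_cast
    rw [← intervalIntegral.integral_add_adjacent_intervals hprev (hint n)]
    congr 1
    have : ∫ s in ((n:ℝ)/T)..(((n:ℝ)+1)/T), (T:ℝ) * f ⌊s * T⌋₊
        = ∫ s in ((n:ℝ)/T)..(((n:ℝ)+1)/T), (T:ℝ) * f n := by
      rw [intervalIntegral.integral_of_le (hle n), intervalIntegral.integral_of_le (hle n),
        integral_Ioc_eq_integral_Ioo, integral_Ioc_eq_integral_Ioo]
      exact setIntegral_congr_fun measurableSet_Ioo (fun s hs => hpt n s hs)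
    rw [this, intervalIntegral.integral_const, smul_eq_mul]
    field_simp
    ring

/-- Riemann sums, dominated convergence. -/
theorem riemann {g : ℕ → ℕ → ℝ} {G bd : ℝ → ℝ} {x : ℝ} (hx : 0 ≤ x)
    (hG : ∀ s ∈ Set.Ioo 0 x, Tendsto (fun T : ℕ => (T:ℝ) * g T ⌊s * T⌋₊) atTop (𝓝 (G s)))
    (hb : ∀ᶠ T : ℕ in atTop, ∀ s ∈ Set.Ioo 0 x, |(T:ℝ) * g T ⌊s * T⌋₊| ≤ bd s)
    (hbd : IntervalIntegrable bd volume 0 x) :
    Tendsto (fun T : ℕ => ∑ j ∈ range ⌊x * T⌋₊, g T j) atTop (𝓝 (∫ s in (0:ℝ)..x, G s)) := by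
  have hmain : Tendsto (fun T : ℕ => ∫ s in (0:ℝ)..x,
      Set.indicator (Set.Iio ((⌊x * T⌋₊ : ℝ)/T)) (fun s => (T:ℝ) * g T ⌊s * T⌋₊) s) atTop
      (𝓝 (∫ s in (0:ℝ)..x, G s)) := by
    apply intervalIntegral.tendsto_integral_filter_of_dominated_convergence bd
    · refine Eventually.of_forall (fun T => ?_)
      apply Measurable.aestronglyMeasurable
      apply Measurable.indicator _ measurableSet_Iio
      apply Measurable.const_mul
      exact (measurable_from_nat (f := g T)).comp (Nat.measurable_floor.comp (measurable_id.mul_const _))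
    · filter_upwards [hb] with T hT
      have hne : ∀ᵐ s : ℝ ∂volume, s ≠ x := by
        simp [ae_iff]
      filter_upwards [hne] with s hs hs'
      rw [Set.uIoc_of_le hx] at hs'
      have hs2 : s ∈ Set.Ioo 0 x := ⟨hs'.1, lt_of_le_of_ne hs'.2 hs⟩
      refine (norm_indicator_le_norm_self _ _).trans ?_
      exact hT s hs2
    · exact hbd
    · have hne : ∀ᵐ s : ℝ ∂volume, s ≠ x := by
        simp [ae_iff]
      filter_upwards [hne] with s hs hs'
      rw [Set.uIoc_of_le hx] at hs'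
      have hs2 : s ∈ Set.Ioo 0 x := ⟨hs'.1, lt_of_le_of_ne hs'.2 hs⟩
      refine (hG s hs2).congr' ?_
      have hfl : Tendsto (fun T : ℕ => (⌊x * T⌋₊ : ℝ)/T) atTop (𝓝 x) := by
        have := (tendsto_nat_floor_mul_div_atTop hx).comp tendsto_natCast_atTop_atTop
        simpa [Function.comp_def] using this
      filter_upwards [hfl.eventually (lt_mem_nhds hs2.2)] with T hT
      rw [Set.indicator_of_mem (show s ∈ Set.Iio _ from hT)]
  refine hmain.congr' ?_
  filter_upwards [eventually_gt_atTop 0] with T hT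
  have hT' : (0:ℝ) < T := by exact_mod_cast hT
  have h1 : (⌊x * T⌋₊ : ℝ)/T ≤ x := by
    rw [div_le_iff₀ hT']
    exact Nat.floor_le (by positivity)
  have h0 : (0:ℝ) ≤ (⌊x * T⌋₊ : ℝ)/T := by positivity
  rw [sum_eq_integral (g T) T hT, intervalIntegral.integral_of_le hx,
    intervalIntegral.integral_of_le h0, setIntegral_indicator measurableSet_Iio,
    integral_Ioc_eq_integral_Ioo (x := (0:ℝ)) (y := (⌊x * T⌋₊ : ℝ)/T)]
  congr 2
  ext s
  simp only [Set.mem_inter_iff, Set.mem_Ioc, Set.mem_Iio, Set.mem_Ioo]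
  constructor
  · rintro ⟨⟨h2, h3⟩, h4⟩
    exact ⟨h2, h4⟩
  · rintro ⟨h2, h4⟩
    exact ⟨⟨h2, by linarith⟩, h4⟩

end CutR
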